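import Pool.Agent.R483.GK.R

/-!
# Task B: reduction of the Bernoulli-Carlitz numbers modulo `P`
-/

set_option autoImplicit false

open Polynomial

namespace Pool.Agent.R483.GK

open Pool.Agent.R360.GK

section

variable {Fq : Type} [Field Fq] {P : Fq[X]}

/-- the graph of the reduction modulo `P` -/
def Rd (P : Fq[X]) (x : RatFunc Fq) (y : AdjoinRoot P) : Prop :=
  ∃ a b : Fq[X], ¬ P ∣ b ∧ x * algebraMap Fq[X] (RatFunc Fq) b = algebraMap Fq[X] (RatFunc Fq) a ∧
    y * AdjoinRoot.mk P b = AdjoinRoot.mk P a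

theorem not_dvd_iff (b : Fq[X]) : ¬ P ∣ b ↔ AdjoinRoot.mk P b ≠ 0 := by
  rw [Ne, AdjoinRoot.mk_eq_zero]

variable [Fact (Irreducible P)]

theorem Rd.alg (a : Fq[X]) : Rd P (algebraMap Fq[X] (RatFunc Fq) a) (AdjoinRoot.mk P a) := by
  refine ⟨a, 1, ?_, by rw [map_one, mul_one], by rw [map_one, mul_one]⟩
  rw [not_dvd_iff, map_one]
  exact one_ne_zero

theorem Rd.zero : Rd P (0 : RatFunc Fq) 0 := by
  have := Rd.alg (P := P) (0 : Fq[X])
  rwa [map_zero, map_zero] at this

theorem Rd.mul {x x' : RatFunc Fq} {y y' : AdjoinRoot P} (h : Rd P x y) (h' : Rd P x' y') :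
    Rd P (x * x') (y * y') := by
  obtain ⟨a, b, hb, h1, h2⟩ := h
  obtain ⟨a', b', hb', h1', h2'⟩ := h'
  refine ⟨a * a', b * b', ?_, ?_, ?_⟩
  · rw [not_dvd_iff] at *
    rw [map_mul]
    exact mul_ne_zero hb hb'
  · rw [map_mul, map_mul, ← h1, ← h1']; ring
  · rw [map_mul, map_mul, ← h2, ← h2']; ring

theorem Rd.add {x x' : RatFunc Fq} {y y' : AdjoinRoot P} (h : Rd P x y) (h' : Rd P x' y') :
    Rd P (x + x') (y + y') := by
  obtain ⟨a, b, hb, h1, h2⟩ := h
  obtain ⟨a', b', hb', h1', h2'⟩ := h'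
  refine ⟨a * b' + a' * b, b * b', ?_, ?_, ?_⟩
  · rw [not_dvd_iff] at *
    rw [map_mul]
    exact mul_ne_zero hb hb'
  · rw [map_mul, map_add, map_mul, map_mul, ← h1, ← h1']; ring
  · rw [map_mul, map_add, map_mul, map_mul, ← h2, ← h2']; ring

theorem Rd.neg {x : RatFunc Fq} {y : AdjoinRoot P} (h : Rd P x y) : Rd P (-x) (-y) := by
  obtain ⟨a, b, hb, h1, h2⟩ := h
  exact ⟨-a, b, hb, by rw [map_neg, ← h1]; ring, by rw [map_neg, ← h2]; ring⟩

theorem Rd.inv {x : RatFunc Fq} {y : AdjoinRoot P} (h : Rd P x y) (hy : y ≠ 0) :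
    Rd P x⁻¹ y⁻¹ := by
  obtain ⟨a, b, hb, h1, h2⟩ := h
  have hb' := (not_dvd_iff (P := P) b).1 hb
  have ha : AdjoinRoot.mk P a ≠ 0 := by rw [← h2]; exact mul_ne_zero hy hb'
  have ha0 : a ≠ 0 := by
    rintro rfl
    exact ha (map_zero _)
  have hx : x ≠ 0 := by
    rintro rfl
    rw [zero_mul] at h1
    have h3 := (map_eq_zero_iff (algebraMap Fq[X] (RatFunc Fq))
      (RatFunc.algebraMap_injective Fq)).1 h1.symm
    exact ha0 h3
  refine ⟨b, a, (not_dvd_iff _).2 ha, ?_, ?_⟩
  · rw [← h1, inv_mul_cancel_left₀ hx]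
  · rw [← h2, inv_mul_cancel_left₀ hy]

theorem Rd.sum {ι : Type} (s : Finset ι) (f : ι → RatFunc Fq) (g : ι → AdjoinRoot P)
    (h : ∀ i ∈ s, Rd P (f i) (g i)) : Rd P (∑ i ∈ s, f i) (∑ i ∈ s, g i) := by
  classical
  induction s using Finset.induction_on with
  | empty => simpa using Rd.zero
  | insert i s hi ih =>
    rw [Finset.sum_insert hi, Finset.sum_insert hi]
    exact (h i (Finset.mem_insert_self i s)).add
      (ih fun j hj => h j (Finset.mem_insert_of_mem hj))

theorem Rd.unique {x : RatFunc Fq} {y y' : AdjoinRoot P} (h : Rd P x y) (h' : Rd P x y') :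
    y = y' := by
  obtain ⟨a, b, hb, h1, h2⟩ := h
  obtain ⟨a', b', hb', h1', h2'⟩ := h'
  rw [not_dvd_iff] at hb hb'
  have h3 : a * b' = a' * b := by
    apply RatFunc.algebraMap_injective Fq
    rw [map_mul, map_mul, ← h1, ← h1']
    ring
  have h4 := congrArg (AdjoinRoot.mk P) h3
  rw [map_mul, map_mul, ← h2, ← h2'] at h4
  have h5 : (y - y') * (AdjoinRoot.mk P b * AdjoinRoot.mk P b') = 0 := by
    linear_combination h4
  have h6 := mul_ne_zero hb hb'
  exact sub_eq_zero.1 ((mul_eq_zero.1 h5).resolve_right h6)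

/-- divisible elements reduce to zero -/
theorem Rd.of_dvd {x : RatFunc Fq} (h : PrimeDvd Fq P x) : Rd P x 0 := by
  obtain ⟨a, b, hb, h1⟩ := h
  refine ⟨P * a, b, hb, h1, ?_⟩
  rw [zero_mul, map_mul, AdjoinRoot.mk_self, zero_mul]

end

section

variable (Fq : Type) [Field Fq] [Fintype Fq] (P : Fq[X]) [Fact (Irreducible P)]

theorem mk_carD (i : ℕ) : AdjoinRoot.mk P (carD Fq i) =
    dth (Fintype.card Fq) (AdjoinRoot.root P) i := by
  rw [carD, dth, map_prod]
  simp only [map_sub, map_pow, AdjoinRoot.mk_X]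

theorem dth_ne {i : ℕ} (hi : i < P.natDegree) :
    dth (Fintype.card Fq) (AdjoinRoot.root P) i ≠ 0 := by
  rw [dth, Finset.prod_ne_zero_iff]
  intro j hj
  rw [Finset.mem_range] at hj
  exact sub_ne_zero.2 (root_inj Fq P hj hi).symm

theorem coeff_eser_pow {l m : ℕ} (hl : l < P.natDegree) (hm : Fintype.card Fq ^ l = m + 1) :
    PowerSeries.coeff m (eser (Fintype.card Fq) P.natDegree (AdjoinRoot.root P)) =
      (dth (Fintype.card Fq) (AdjoinRoot.root P) l)⁻¹ := by
  have hq : 1 < Fintype.card Fq := Fintype.one_lt_card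
  rw [eser, map_sum]
  simp only [PowerSeries.coeff_C_mul_X_pow]
  rw [Finset.sum_eq_single l]
  · rw [if_pos (by omega)]
  · intro j _ hjl
    rw [if_neg]
    intro h
    have hpos : 0 < Fintype.card Fq ^ j := pow_pos (by omega) j
    exact hjl (Nat.pow_right_injective hq (show Fintype.card Fq ^ j = Fintype.card Fq ^ l by omega))
  · intro h
    exact absurd (Finset.mem_range.2 hl) h

theorem coeff_eser_zero {m : ℕ} (hm : ∀ l, Fintype.card Fq ^ l ≠ m + 1) :
    PowerSeries.coeff m (eser (Fintype.card Fq) P.natDegree (AdjoinRoot.root P)) = 0 := by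
  have hq : 1 < Fintype.card Fq := Fintype.one_lt_card
  rw [eser, map_sum]
  simp only [PowerSeries.coeff_C_mul_X_pow]
  refine Finset.sum_eq_zero fun j _ => ?_
  rw [if_neg]
  intro h
  have hpos : 0 < Fintype.card Fq ^ j := pow_pos (by omega) j
  exact hm j (by omega)

theorem rd_coeff {m : ℕ} (hm : m < Fintype.card Fq ^ P.natDegree - 1) :
    Rd P (PowerSeries.coeff m (expDivZ Fq))
      (PowerSeries.coeff m (eser (Fintype.card Fq) P.natDegree (AdjoinRoot.root P))) := by
  classical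
  have hq : 1 < Fintype.card Fq := Fintype.one_lt_card
  rw [expDivZ, PowerSeries.coeff_mk]
  by_cases h : Fintype.card Fq ^ Nat.log (Fintype.card Fq) (m + 1) = m + 1
  · have hl : Nat.log (Fintype.card Fq) (m + 1) < P.natDegree := by
      rw [← Nat.pow_lt_pow_iff_right hq, h]
      omega
    rw [if_pos h, coeff_eser_pow Fq P hl h, ← mk_carD]
    refine (Rd.alg _).inv ?_
    rw [mk_carD]
    exact dth_ne Fq P hl
  · rw [if_neg h, coeff_eser_zero Fq P]
    · exact Rd.zero
    · intro l hl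
      apply h
      rw [← hl, Nat.log_pow hq]

omit [Fintype Fq] in
theorem natDegree_pos' : 0 < P.natDegree := (Fact.out : Irreducible P).natDegree_pos

theorem const_eser :
    PowerSeries.constantCoeff (eser (Fintype.card Fq) P.natDegree (AdjoinRoot.root P)) = 1 := by
  rw [← PowerSeries.coeff_zero_eq_constantCoeff_apply,
    coeff_eser_pow Fq P (natDegree_pos' Fq P) (by simp)]
  simp [dth]

theorem rd_inv (n : ℕ) (hn : n < Fintype.card Fq ^ P.natDegree - 1) :
    Rd P (PowerSeries.coeff n (expDivZ Fq)⁻¹)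
      (PowerSeries.coeff n (eser (Fintype.card Fq) P.natDegree (AdjoinRoot.root P))⁻¹) := by
  induction n using Nat.strong_induction_on with
  | _ n ih =>
    have h0 := rd_coeff Fq P (m := 0) (by omega)
    rw [PowerSeries.coeff_zero_eq_constantCoeff_apply,
      PowerSeries.coeff_zero_eq_constantCoeff_apply] at h0
    have h1 := h0.inv (by rw [const_eser]; exact one_ne_zero)
    rw [PowerSeries.coeff_inv, PowerSeries.coeff_inv]
    split_ifs with hn0
    · exact h1
    · refine h1.neg.mul (Rd.sum _ _ _ fun x hx => ?_)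
      have hx' : x.1 + x.2 = n := by simpa using hx
      split_ifs with h2
      · exact (rd_coeff Fq P (by omega)).mul (ih _ h2 (by omega))
      · exact Rd.zero

theorem mk_carPi {n : ℕ} (hn : n < Fintype.card Fq ^ P.natDegree - 1) :
    AdjoinRoot.mk P (carPi Fq n) ≠ 0 := by
  have hq : 1 < Fintype.card Fq := Fintype.one_lt_card
  rw [carPi, map_prod, Finset.prod_ne_zero_iff]
  intro i _
  rw [map_pow, mk_carD]
  by_cases hi : i < P.natDegree
  · exact pow_ne_zero _ (dth_ne Fq P hi)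
  · push Not at hi
    have h1 : Fintype.card Fq ^ P.natDegree ≤ Fintype.card Fq ^ i := Nat.pow_le_pow_right (by omega) hi
    rw [Nat.div_eq_of_lt (by omega), Nat.zero_mod, pow_zero]
    exact one_ne_zero

end

/-- Task B -/
theorem taskB : TaskB := by
  intro Fq _ _ P _ _ n hn hdvd
  have h1 : Rd P (bernoulliCarlitz Fq n) (AdjoinRoot.mk P (carPi Fq n) *
      PowerSeries.coeff n (eser (Fintype.card Fq) P.natDegree (AdjoinRoot.root P))⁻¹) :=
    (Rd.alg _).mul (rd_inv Fq P n hn)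
  have h2 := h1.unique (Rd.of_dvd hdvd)
  exact (mul_eq_zero.1 h2).resolve_left (mk_carPi Fq P hn)

end Pool.Agent.R483.GK
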