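import Pool.Agent.R360.GK.Tasks2

/-!
# Task R: the roots of `P` in `A / P`
-/

set_option autoImplicit false

open Polynomial

namespace Pool.Agent.R483.GK

open Pool.Agent.R360.GK

section

variable (Fq : Type) [Field Fq] [Fintype Fq] (P : Fq[X]) [Fact (Irreducible P)]

omit [Fintype Fq] in
theorem fin_mod : Module.Finite Fq (AdjoinRoot P) :=
  Module.Finite.of_basis (AdjoinRoot.powerBasis (Fact.out : Irreducible P).ne_zero).basis

theorem natCard_adj : Nat.card (AdjoinRoot P) = Fintype.card Fq ^ P.natDegree := by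
  have := fin_mod Fq P
  rw [Module.natCard_eq_pow_finrank (K := Fq),
    (AdjoinRoot.powerBasis (Fact.out : Irreducible P).ne_zero).finrank, AdjoinRoot.powerBasis_dim,
    Nat.card_eq_fintype_card]

theorem fin_adj : Finite (AdjoinRoot P) := by
  have := fin_mod Fq P
  exact Module.finite_of_finite Fq

theorem root_pow : AdjoinRoot.root P ^ Fintype.card Fq ^ P.natDegree = AdjoinRoot.root P := by
  have := fin_adj Fq P
  have := Fintype.ofFinite (AdjoinRoot P)
  have h := FiniteField.pow_card (AdjoinRoot.root P)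
  rwa [← Nat.card_eq_fintype_card, natCard_adj] at h

theorem root_ne {i : ℕ} (hi : 0 < i) (hid : i < P.natDegree) :
    AdjoinRoot.root P ^ Fintype.card Fq ^ i ≠ AdjoinRoot.root P := by
  intro h
  have hfin := fin_adj Fq P
  have := Fintype.ofFinite (AdjoinRoot P)
  obtain ⟨p, hp⟩ := CharP.exists Fq
  have hpp : p.Prime := CharP.char_prime_of_ne_zero Fq (CharP.char_ne_zero_of_finite Fq p)
  have := Fact.mk hpp
  have hcp : CharP (AdjoinRoot P) p := charP_of_injective_algebraMap
    (algebraMap Fq (AdjoinRoot P)).injective p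
  obtain ⟨m, -, hm⟩ := FiniteField.card Fq p
  -- the ring homomorphism
  have hall : ∀ x : AdjoinRoot P, x ^ Fintype.card Fq ^ i = x := by
    intro x
    have hF : ∀ y : AdjoinRoot P, iterateFrobenius (AdjoinRoot P) p (m * i) y =
        y ^ Fintype.card Fq ^ i := by
      intro y
      rw [iterateFrobenius_def, hm, pow_mul]
    rw [← hF]
    obtain ⟨g, rfl⟩ := AdjoinRoot.mk_surjective x
    induction g using Polynomial.induction_on' with
    | add a b ha hb => rw [map_add, map_add, ha, hb]
    | monomial k c =>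
      rw [← C_mul_X_pow_eq_monomial, map_mul, map_mul, map_pow, map_pow, AdjoinRoot.mk_X, hF, hF, h]
      congr 1
      rw [AdjoinRoot.mk_C, ← map_pow]
      congr 1
      exact FiniteField.pow_card_pow i c
  have hq : 1 < Fintype.card Fq := Fintype.one_lt_card
  have hlt : Fintype.card Fq ^ i < Fintype.card Fq ^ P.natDegree := Nat.pow_lt_pow_right hq hid
  have h1 : 1 < Fintype.card Fq ^ i := Nat.one_lt_pow hi.ne' hq
  have hne : (X ^ Fintype.card Fq ^ i - X : (AdjoinRoot P)[X]) ≠ 0 :=
    FiniteField.X_pow_card_sub_X_ne_zero _ h1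
  have hdeg : (X ^ Fintype.card Fq ^ i - X : (AdjoinRoot P)[X]).natDegree = Fintype.card Fq ^ i :=
    FiniteField.X_pow_card_sub_X_natDegree_eq _ h1
  have hcard := Polynomial.card_le_degree_of_subset_roots (p := X ^ Fintype.card Fq ^ i - X)
    (Z := (Finset.univ : Finset (AdjoinRoot P))) (by
      intro x _
      rw [mem_roots hne]
      simp [hall x])
  rw [hdeg, Finset.card_univ, ← Nat.card_eq_fintype_card, natCard_adj] at hcard
  omega

theorem root_inj {i j : ℕ} (hij : i < j) (hj : j < P.natDegree) :
    AdjoinRoot.root P ^ Fintype.card Fq ^ i ≠ AdjoinRoot.root P ^ Fintype.card Fq ^ j := by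
  intro h
  obtain ⟨p, hp⟩ := CharP.exists Fq
  have hpp : p.Prime := CharP.char_prime_of_ne_zero Fq (CharP.char_ne_zero_of_finite Fq p)
  have := Fact.mk hpp
  have hcp : CharP (AdjoinRoot P) p := charP_of_injective_algebraMap
    (algebraMap Fq (AdjoinRoot P)).injective p
  obtain ⟨m, -, hm⟩ := FiniteField.card Fq p
  refine root_ne Fq P (i := j - i) (by omega) (by omega) ?_
  have hF : ∀ y : AdjoinRoot P, iterateFrobenius (AdjoinRoot P) p (m * i) y =
      y ^ Fintype.card Fq ^ i := by
    intro y
    rw [iterateFrobenius_def, hm, pow_mul]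
  apply iterateFrobenius_inj (AdjoinRoot P) p (m * i)
  rw [hF, hF, ← pow_mul, ← pow_add, Nat.sub_add_cancel hij.le, h]

theorem map_prod_eq (hP : P.Monic) : P.map (algebraMap Fq (AdjoinRoot P)) =
    ∏ j ∈ Finset.range P.natDegree, (X - C (AdjoinRoot.root P ^ Fintype.card Fq ^ j)) := by
  have hPm : (P.map (algebraMap Fq (AdjoinRoot P))).Monic := hP.map _
  have hmon : (∏ j ∈ Finset.range P.natDegree,
      (X - C (AdjoinRoot.root P ^ Fintype.card Fq ^ j))).Monic :=
    monic_prod_of_monic _ _ fun j _ => monic_X_sub_C _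
  symm
  refine (eq_of_monic_of_dvd_of_natDegree_le hmon hPm ?_ ?_).symm
  · have hinj : Set.InjOn (fun j => AdjoinRoot.root P ^ Fintype.card Fq ^ j)
        (Finset.range P.natDegree : Set ℕ) := by
      intro a ha b hb hab
      rw [Finset.coe_range, Set.mem_Iio] at ha hb
      rcases lt_trichotomy a b with h | h | h
      · exact absurd hab (root_inj Fq P h hb)
      · exact h
      · exact absurd hab.symm (root_inj Fq P h ha)
    refine Finset.prod_dvd_of_coprime ?_ ?_
    · intro a ha b hb hab
      exact isCoprime_X_sub_C_of_isUnit_sub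
        (sub_ne_zero.2 fun h => hab (hinj ha hb h)).isUnit
    · intro j hj
      rw [dvd_iff_isRoot, IsRoot, eval_map_algebraMap]
      have h1 : aeval (AdjoinRoot.root P ^ Fintype.card Fq ^ j) P =
          (aeval (AdjoinRoot.root P) P) ^ Fintype.card Fq ^ j := by
        clear hj
        induction j with
        | zero => simp
        | succ j ih =>
          rw [pow_succ, pow_mul, pow_mul, ← ih, ← map_pow, ← FiniteField.expand_card, expand_aeval]
      rw [h1, AdjoinRoot.aeval_eq, AdjoinRoot.mk_self, zero_pow]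
      exact (pow_pos Fintype.card_pos _).ne'
  · rw [hP.natDegree_map, natDegree_prod_of_monic _ _ fun j _ => monic_X_sub_C _]
    simp only [natDegree_X_sub_C, Finset.sum_const, Finset.card_range, smul_eq_mul, mul_one, le_refl]

end

/-- Task R -/
theorem taskR : TaskR := by
  intro Fq _ _ P _ hP
  exact ⟨root_pow Fq P, fun i hi hid => root_ne Fq P hi hid, map_prod_eq Fq P hP⟩

end Pool.Agent.R483.GK
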